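import Pool.Agent.SAPX.Models

/-!
Self-avoiding polygons of the square lattice with bounded backtracking, under the uniform measure:
for every bound `k` on the backtracking the mean area is asymptotic to a positive constant times
`n ^ (3 / 2)`, and for large `k` these polygons have almost the full exponential growth of all
polygons.
-/

namespace Pool.Agent.Results.MP_2250b1_co.BoundedBacktrackLimit

/-- `v 0, v 1, ..., v (m - 1)` are the consecutive vertices of a self-avoiding polygon with `m`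
edges, rooted at `v 0 = (0, 0)` and oriented. Up to translation, every polygon of perimeter
`m ≥ 4` is listed exactly `2 * m` times (`m` roots, two orientations). -/
def IsSAP (m : ℕ) (v : ZMod m → ℤ × ℤ) : Prop :=
  v 0 = 0 ∧ Function.Injective v ∧
    ∀ i, v (i + 1) - v i ∈ ({(1, 0), (0, 1), (-1, 0), (0, -1)} : Set (ℤ × ℤ))

/-- The horizontal edges of the polygon lying above the unit square
`[c.1, c.1 + 1] × [c.2, c.2 + 1]`, in the column of this square. -/
def above {m : ℕ} (v : ZMod m → ℤ × ℤ) (c : ℤ × ℤ) : Set (ZMod m) :=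
  {i | (v i).2 = (v (i + 1)).2 ∧ min (v i).1 (v (i + 1)).1 = c.1 ∧ c.2 < (v i).2}

/-- Area: the number of unit squares in the bounded region, that is, of the unit squares with an
odd number of polygon edges above them (an upward ray from an interior point crosses the polygon
an odd number of times). -/
noncomputable def area {m : ℕ} (v : ZMod m → ℤ × ℤ) : ℕ :=
  Set.ncard {c : ℤ × ℤ | Odd (above v c).ncard}

/-- Backtracking at most `k`: for some leftmost vertex `v i` and some rightmost vertex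
`v (i + p)`, the arc `v i, ..., v (i + p)` never goes left by more than `k` columns, and the
remaining arc `v (i + p), ..., v (i + m) = v i` never goes right by more than `k` columns. -/
def Backtrack (k : ℕ) {m : ℕ} (v : ZMod m → ℤ × ℤ) : Prop :=
  ∃ (i : ZMod m) (p : ℕ), p ≤ m ∧ (∀ j, (v i).1 ≤ (v j).1 ∧ (v j).1 ≤ (v (i + p)).1) ∧
    (∀ s t : ℕ, s ≤ t → t ≤ p → (v (i + s)).1 ≤ (v (i + t)).1 + k) ∧
    (∀ s t : ℕ, p ≤ s → s ≤ t → t ≤ m → (v (i + t)).1 ≤ (v (i + s)).1 + k)

/-- All self-avoiding polygons of perimeter `2 * n`. -/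
def All (n : ℕ) : Set (ZMod (2 * n) → ℤ × ℤ) := {v | IsSAP (2 * n) v}

/-- The self-avoiding polygons of perimeter `2 * n` that backtrack at most `k`. -/
def Fam (k n : ℕ) : Set (ZMod (2 * n) → ℤ × ℤ) := {v | IsSAP (2 * n) v ∧ Backtrack k v}

/-- Mean area of a uniformly chosen element of the finite set `S` of polygons. -/
noncomputable def meanArea {m : ℕ} (S : Set (ZMod m → ℤ × ℤ)) : ℝ :=
  (∑ᶠ v ∈ S, (area v : ℝ)) / S.ncard

theorem result (ε : ℝ) (hε : 0 < ε) : ∃ k₀ : ℕ, ∀ k : ℕ,
    (∃ C > 0, Filter.Tendsto (fun n : ℕ => meanArea (Fam k n) / (n : ℝ) ^ (3 / 2 : ℝ))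
      Filter.atTop (nhds C)) ∧
    (k₀ ≤ k → ∃ n₀ : ℕ, ∀ n ≥ n₀,
      Real.exp (-ε * n) * ((All n).ncard : ℝ) ≤ ((Fam k n).ncard : ℝ)) := by
  obtain ⟨k₀, hk₀⟩ := Pool.Agent.SAPK.growthK ε hε
  exact ⟨k₀, fun k => ⟨Pool.Agent.SAPX.bounded k, fun hk => hk₀ k hk⟩⟩

end Pool.Agent.Results.MP_2250b1_co.BoundedBacktrackLimit
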