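import Pool.Agent.SAPZ.Diam

/-!
Self-avoiding polygons of the square lattice, all polygons of perimeter `2 * n` whose diameter in
the supremum norm lies in a set `J n` being equally likely, where the least element of `J n` is
`α * n + O (√n)` and `0 < α < 1`: the mean area is asymptotic to a positive constant times
`n ^ (3 / 2)`.
-/

namespace Pool.Agent.Results.MP_2250b1_co.MacroscopicDiameterLimit

/-- `v 0, v 1, ..., v (m - 1)` are the consecutive vertices of a self-avoiding polygon with `m`
edges, rooted at `v 0 = (0, 0)` and oriented. Up to translation, every polygon of perimeter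
`m ≥ 4` is listed exactly `2 * m` times (`m` roots, two orientations). -/
def IsSAP (m : ℕ) (v : ZMod m → ℤ × ℤ) : Prop :=
  v 0 = 0 ∧ Function.Injective v ∧
    ∀ i, v (i + 1) - v i ∈ ({(1, 0), (0, 1), (-1, 0), (0, -1)} : Set (ℤ × ℤ))

/-- Horizontal width: the largest difference of the horizontal coordinates of two vertices. -/
noncomputable def width {m : ℕ} (v : ZMod m → ℤ × ℤ) : ℤ :=
  sSup {d : ℤ | ∃ i j, d = (v i).1 - (v j).1}

/-- Height: the largest difference of the vertical coordinates of two vertices. -/
noncomputable def height {m : ℕ} (v : ZMod m → ℤ × ℤ) : ℤ :=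
  sSup {d : ℤ | ∃ i j, d = (v i).2 - (v j).2}

/-- Diameter: the largest distance of two vertices in the supremum norm. -/
noncomputable def diam {m : ℕ} (v : ZMod m → ℤ × ℤ) : ℤ := max (width v) (height v)

/-- The horizontal edges of the polygon lying above the unit square
`[c.1, c.1 + 1] × [c.2, c.2 + 1]`, in the column of this square. -/
def above {m : ℕ} (v : ZMod m → ℤ × ℤ) (c : ℤ × ℤ) : Set (ZMod m) :=
  {i | (v i).2 = (v (i + 1)).2 ∧ min (v i).1 (v (i + 1)).1 = c.1 ∧ c.2 < (v i).2}

/-- Area: the number of unit squares in the bounded region, that is, of the unit squares with an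
odd number of polygon edges above them (an upward ray from an interior point crosses the polygon
an odd number of times). -/
noncomputable def area {m : ℕ} (v : ZMod m → ℤ × ℤ) : ℕ :=
  Set.ncard {c : ℤ × ℤ | Odd (above v c).ncard}

/-- Mean area of the polygons of the finite set `S`, all of them being equally likely. -/
noncomputable def meanArea {m : ℕ} (S : Set (ZMod m → ℤ × ℤ)) : ℝ :=
  (∑ᶠ v ∈ S, (area v : ℝ)) / (S.ncard : ℝ)

theorem result (α : ℝ) (h0 : 0 < α) (h1 : α < 1) :
    ∃ C > 0, ∀ (J : ℕ → Set ℤ) (w : ℕ → ℤ) (B : ℝ), (∀ n, IsLeast (J n) (w n)) →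
      (∀ n : ℕ, |(w n : ℝ) - α * n| ≤ B * √n) →
      Filter.Tendsto (fun n : ℕ =>
        meanArea {v : ZMod (2 * n) → ℤ × ℤ | IsSAP (2 * n) v ∧ diam v ∈ J n} /
          (n : ℝ) ^ (3 / 2 : ℝ)) Filter.atTop (nhds C) :=
  Pool.Agent.SAPZ.mainD h0 h1

end Pool.Agent.Results.MP_2250b1_co.MacroscopicDiameterLimit
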