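import Pool.Agent.SAPZ.Main

/-!
Self-avoiding polygons of the square lattice, all polygons of perimeter `2 * n` whose width lies in
a set `J n` being equally likely, where the least element of `J n` is `α * n + O (√n)` and
`0 < α < 1`: the mean area is asymptotic to a positive constant times `n ^ (3 / 2)`.
-/

namespace Pool.Agent.Results.MP_2250b1_co.MacroscopicWidthLimit

/-- `v 0, v 1, ..., v (m - 1)` are the consecutive vertices of a self-avoiding polygon with `m`
edges, rooted at `v 0 = (0, 0)` and oriented. Up to translation, every polygon of perimeter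
`m ≥ 4` is listed exactly `2 * m` times (`m` roots, two orientations). -/
def IsSAP (m : ℕ) (v : ZMod m → ℤ × ℤ) : Prop :=
  v 0 = 0 ∧ Function.Injective v ∧
    ∀ i, v (i + 1) - v i ∈ ({(1, 0), (0, 1), (-1, 0), (0, -1)} : Set (ℤ × ℤ))

/-- Horizontal width: the largest difference of the horizontal coordinates of two vertices. -/
noncomputable def width {m : ℕ} (v : ZMod m → ℤ × ℤ) : ℤ :=
  sSup {d : ℤ | ∃ i j, d = (v i).1 - (v j).1}

/-- The horizontal edges of the polygon lying above the unit square
`[c.1, c.1 + 1] × [c.2, c.2 + 1]`, in the column of this square. -/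
def above {m : ℕ} (v : ZMod m → ℤ × ℤ) (c : ℤ × ℤ) : Set (ZMod m) :=
  {i | (v i).2 = (v (i + 1)).2 ∧ min (v i).1 (v (i + 1)).1 = c.1 ∧ c.2 < (v i).2}

/-- Area: the number of unit squares in the bounded region, that is, of the unit squares with an
odd number of polygon edges above them (an upward ray from an interior point crosses the polygon
an odd number of times). -/
noncomputable def area {m : ℕ} (v : ZMod m → ℤ × ℤ) : ℕ :=
  Set.ncard {c : ℤ × ℤ | Odd (above v c).ncard}

/-- Mean area of the polygons of the finite set `S`, all of them being equally likely. -/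
noncomputable def meanArea {m : ℕ} (S : Set (ZMod m → ℤ × ℤ)) : ℝ :=
  (∑ᶠ v ∈ S, (area v : ℝ)) / (S.ncard : ℝ)

theorem result (α : ℝ) (h0 : 0 < α) (h1 : α < 1) :
    ∃ C > 0, ∀ (J : ℕ → Set ℤ) (w : ℕ → ℤ) (B : ℝ), (∀ n, IsLeast (J n) (w n)) →
      (∀ n : ℕ, |(w n : ℝ) - α * n| ≤ B * √n) →
      Filter.Tendsto (fun n : ℕ =>
        meanArea {v : ZMod (2 * n) → ℤ × ℤ | IsSAP (2 * n) v ∧ width v ∈ J n} /
          (n : ℝ) ^ (3 / 2 : ℝ)) Filter.atTop (nhds C) :=
  Pool.Agent.SAPZ.mainZ h0 h1

end Pool.Agent.Results.MP_2250b1_co.MacroscopicWidthLimit
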