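import Pool.Agent.SAPX.Models

/-!
Self-avoiding polygons of the square lattice pulled by an arbitrary positive force: for every
force `f > 0` the mean area is asymptotic to a positive constant times `n ^ (3 / 2)`.
-/

namespace Pool.Agent.Results.MP_2250b1_co.StretchedAreaLimit

/-- `v 0, v 1, ..., v (m - 1)` are the consecutive vertices of a self-avoiding polygon with `m`
edges, rooted at `v 0 = (0, 0)` and oriented. Up to translation, every polygon of perimeter
`m ≥ 4` is listed exactly `2 * m` times (`m` roots, two orientations). -/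
def IsSAP (m : ℕ) (v : ZMod m → ℤ × ℤ) : Prop :=
  v 0 = 0 ∧ Function.Injective v ∧
    ∀ i, v (i + 1) - v i ∈ ({(1, 0), (0, 1), (-1, 0), (0, -1)} : Set (ℤ × ℤ))

/-- Horizontal width: the largest difference of the horizontal coordinates of two vertices. -/
noncomputable def width {m : ℕ} (v : ZMod m → ℤ × ℤ) : ℤ :=
  sSup {d : ℤ | ∃ i j, d = (v i).1 - (v j).1}

/-- The horizontal edges of the polygon lying above the unit square
`[c.1, c.1 + 1] × [c.2, c.2 + 1]`, in the column of this square. -/
def above {m : ℕ} (v : ZMod m → ℤ × ℤ) (c : ℤ × ℤ) : Set (ZMod m) :=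
  {i | (v i).2 = (v (i + 1)).2 ∧ min (v i).1 (v (i + 1)).1 = c.1 ∧ c.2 < (v i).2}

/-- Area: the number of unit squares in the bounded region, that is, of the unit squares with an
odd number of polygon edges above them (an upward ray from an interior point crosses the polygon
an odd number of times). -/
noncomputable def area {m : ℕ} (v : ZMod m → ℤ × ℤ) : ℕ :=
  Set.ncard {c : ℤ × ℤ | Odd (above v c).ncard}

/-- Mean area of the self-avoiding polygons of perimeter `2 * n`, each polygon having the weight
`exp (f * width)`. -/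
noncomputable def meanArea (f : ℝ) (n : ℕ) : ℝ :=
  (∑ᶠ v ∈ {v : ZMod (2 * n) → ℤ × ℤ | IsSAP (2 * n) v}, (area v : ℝ) * Real.exp (f * width v)) /
    ∑ᶠ v ∈ {v : ZMod (2 * n) → ℤ × ℤ | IsSAP (2 * n) v}, Real.exp (f * width v)

theorem result (f : ℝ) (hf : 0 < f) : ∃ C > 0, Filter.Tendsto
    (fun n : ℕ => meanArea f n / (n : ℝ) ^ (3 / 2 : ℝ)) Filter.atTop (nhds C) :=
  Pool.Agent.SAPX.stretched hf

end Pool.Agent.Results.MP_2250b1_co.StretchedAreaLimit
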